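import Pool.Agent.MP_3f0e22_ag.Asm6

/-!
# Potential density of integral points in the relative character varieties of affine curves

Let `Y` be a smooth complex curve of genus `g` with `n ≥ 1` punctures and `r ≥ 3`. Its fundamental
group is generated by `a_j, b_j` (`j < g`) and the loops `c_i` (`i < n`) around the punctures, with
the single relation `∏ [a_j, b_j] ∏ c_i = 1`. We prove that the integral points are potentially
Zariski-dense in all the relative representation spaces of `π₁(Y)` in `SL_r` and `GL_r` (hence in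
the relative character varieties, which are their quotients by conjugation).
-/

set_option autoImplicit false

namespace Pool.Agent.Results.MP_3f0e22_ag.AffineCurves

open Matrix Polynomial NumberField

/-- `Hom(π₁(Y), G)`, where `Y` has genus `g` and `n ≥ 1` punctures: the tuples
`((a_j), (b_j), (c_i))` with `∏ a_j b_j a_j⁻¹ b_j⁻¹ ∏ c_i = 1`. -/
def Rep (G : Type) [Group G] (g n : ℕ) : Set ((Fin g → G) × (Fin g → G) × (Fin n → G)) :=
  {ρ | (List.ofFn fun j => ρ.1 j * ρ.2.1 j * (ρ.1 j)⁻¹ * (ρ.2.1 j)⁻¹).prod *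
    (List.ofFn ρ.2.2).prod = 1}

/-- The representations in `SL_r(R)` such that the loop `c_i` has the characteristic polynomial
`χ i`. -/
def SLRep {R : Type} [CommRing R] (g n r : ℕ) (χ : Fin n → R[X]) :
    Set ((Fin g → Matrix.SpecialLinearGroup (Fin r) R) ×
      (Fin g → Matrix.SpecialLinearGroup (Fin r) R) ×
      (Fin n → Matrix.SpecialLinearGroup (Fin r) R)) :=
  {ρ | ρ ∈ Rep (Matrix.SpecialLinearGroup (Fin r) R) g n ∧ ∀ i, (ρ.2.2 i).1.charpoly = χ i}

/-- The representations in `GL_r(R)` such that the loop `c_i` has the characteristic polynomial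
`χ i`. -/
def GLRep {R : Type} [CommRing R] (g n r : ℕ) (χ : Fin n → R[X]) :
    Set ((Fin g → GL (Fin r) R) × (Fin g → GL (Fin r) R) × (Fin n → GL (Fin r) R)) :=
  {ρ | ρ ∈ Rep (GL (Fin r) R) g n ∧ ∀ i, (ρ.2.2 i).1.charpoly = χ i}

/-- The matrix entries of a tuple, for a function `M` which gives matrices. -/
def coords {G R : Type} {g n r : ℕ} (M : G → Matrix (Fin r) (Fin r) R)
    (ρ : (Fin g → G) × (Fin g → G) × (Fin n → G)) :
    (Fin g ⊕ Fin g ⊕ Fin n) × Fin r × Fin r → R
  | (Sum.inl j, x) => M (ρ.1 j) x.1 x.2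
  | (Sum.inr (Sum.inl j), x) => M (ρ.2.1 j) x.1 x.2
  | (Sum.inr (Sum.inr i), x) => M (ρ.2.2 i) x.1 x.2

/-- The number field `L ⊇ K` is good for the `χ i`: these polynomials split over `L`, and `𝓞 L` has
infinitely many units. -/
def Good {K : Type} [Field K] [NumberField K] {n : ℕ} (χ : Fin n → (𝓞 K)[X]) (L : Type) [Field L]
    [NumberField L] [Algebra K L] : Prop :=
  (∀ i, ((χ i).map (algebraMap (𝓞 K) L)).Splits) ∧ Infinite (𝓞 L)ˣ

open Pool.Agent.MP_3f0e22_ag Pool.Agent.MP_3f0e22_ag.Asm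

theorem exists_good {K : Type} [Field K] [NumberField K] {n : ℕ} (χ : Fin n → (𝓞 K)[X])
    (hχ : ∀ i, (χ i).Monic) :
    ∃ (L : Type) (_ : Field L) (_ : NumberField L) (_ : Algebra K L), Good χ L := by
  obtain ⟨L, _, _, _, hs, v, hv⟩ := exists_L (K := K)
    (∏ i, (χ i).map (algebraMap (𝓞 K) K)) (Finset.prod_ne_zero_iff.2 fun i _ =>
      ((hχ i).map _).ne_zero)
  refine ⟨L, inferInstance, inferInstance, inferInstance, fun i => ?_, ?_⟩
  · have h1 : (χ i).map (algebraMap (𝓞 K) L) ∣
        (∏ i, (χ i).map (algebraMap (𝓞 K) K)).map (algebraMap K L) := by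
      rw [Polynomial.map_prod]
      have h2 : (χ i).map (algebraMap (𝓞 K) L) =
          ((χ i).map (algebraMap (𝓞 K) K)).map (algebraMap K L) := by
        rw [Polynomial.map_map, ← IsScalarTower.algebraMap_eq (𝓞 K) K L]
      rw [h2]
      exact Finset.dvd_prod_of_mem _ (Finset.mem_univ i)
    refine Polynomial.Splits.of_dvd hs ?_ h1
    refine Polynomial.map_ne_zero (Finset.prod_ne_zero_iff.2 fun i _ => ((hχ i).map _).ne_zero)
  · refine Infinite.of_injective (fun m : ℤ => v ^ m) ?_
    intro m m' h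
    have h1 : v ^ (m - m') = 1 := by
      rw [_root_.zpow_sub]
      simp only at h
      rw [h, mul_inv_cancel]
    have := hv _ h1
    omega

/-- The coefficient of degree `0` is a unit if there is a representation. -/
theorem isUnit_coeff {S Ω : Type} [CommRing S] [Field Ω] (j : S →+* Ω)
    (hj : Function.Injective j) {n r : ℕ} (χ : Fin n → S[X])
    (B : Fin n → Mat r Ω) (hB : ∏ i, (B i).det = 1)
    (h : ∀ i, (B i).charpoly = (χ i).map j) (i : Fin n) : IsUnit ((χ i).coeff 0) := by
  have h1 : ∏ i, ((-1) ^ r * (χ i).coeff 0) = 1 := by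
    apply hj
    rw [map_prod, map_one, ← hB]
    refine Finset.prod_congr rfl fun i _ => ?_
    rw [det_eq_sign_charpoly_coeff, h i, Polynomial.coeff_map, map_mul, map_pow, map_neg, map_one,
      Fintype.card_fin]
  have h2 : IsUnit (∏ i, ((-1) ^ r * (χ i).coeff 0)) := by
    rw [h1]; exact isUnit_one
  have h3 := IsUnit.prod_univ_iff.1 h2 i
  exact isUnit_of_mul_isUnit_right h3

/-- **Potential density of the integral points for affine curves.** Let `K` be a number field,
`r ≥ 3`, and let `χ_1, …, χ_n ∈ 𝓞_K[X]` (`n ≥ 1`) be monic of degree `r`. There is a number field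
`L ⊇ K` over which the `χ_i` split and whose ring of integers has infinitely many units; and for
every such `L`, every polynomial in the matrix entries with coefficients in an algebraically closed
field `Ω ⊇ L` which vanishes at all the representations of `π₁(Y)` in `SL_r(𝓞_L)` (or `GL_r(𝓞_L)`)
with `char(c_i) = χ_i` vanishes at all the representations in `SL_r(Ω)` (resp. `GL_r(Ω)`) with
`char(c_i) = χ_i`. -/
theorem result (K : Type) [Field K] [NumberField K] (g n r : ℕ) (hn : 1 ≤ n) (hr : 3 ≤ r)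
    (χ : Fin n → (𝓞 K)[X]) (hχ : ∀ i, (χ i).Monic ∧ (χ i).natDegree = r) :
    (∃ (L : Type) (_ : Field L) (_ : NumberField L) (_ : Algebra K L), Good χ L) ∧
    ∀ (L : Type) [Field L] [NumberField L] [Algebra K L], Good χ L →
      ∀ (Ω : Type) [Field Ω] [IsAlgClosed Ω] [Algebra L Ω]
        (F : MvPolynomial ((Fin g ⊕ Fin g ⊕ Fin n) × Fin r × Fin r) Ω),
        ((∀ ρ ∈ SLRep g n r (fun i => (χ i).map (algebraMap (𝓞 K) (𝓞 L))),
            MvPolynomial.eval (fun x => algebraMap L Ω (algebraMap (𝓞 L) L (coords Subtype.val ρ x))) F = 0) →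
          ∀ ρ ∈ SLRep g n r
              (fun i => ((χ i).map (algebraMap (𝓞 K) L)).map (algebraMap L Ω)),
            MvPolynomial.eval (coords Subtype.val ρ) F = 0) ∧
        ((∀ ρ ∈ GLRep g n r (fun i => (χ i).map (algebraMap (𝓞 K) (𝓞 L))),
            MvPolynomial.eval (fun x => algebraMap L Ω (algebraMap (𝓞 L) L (coords Units.val ρ x))) F = 0) →
          ∀ ρ ∈ GLRep g n r
              (fun i => ((χ i).map (algebraMap (𝓞 K) L)).map (algebraMap L Ω)),
            MvPolynomial.eval (coords Units.val ρ) F = 0) := by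
  refine ⟨exists_good χ fun i => (hχ i).1, ?_⟩
  intro L _ _ _ hL Ω _ _ _ F
  obtain ⟨hs, hinf⟩ := hL
  obtain ⟨v, hv⟩ := exists_inf_order L
  set ι : 𝓞 L →+* Ω := (algebraMap L Ω).comp (algebraMap (𝓞 L) L) with hι
  have hιinj : Function.Injective ι := (algebraMap L Ω).injective.comp RingOfIntegers.coe_injective
  have hmap : ∀ i, ((χ i).map (algebraMap (𝓞 K) L)).map (algebraMap L Ω) =
      ((χ i).map (algebraMap (𝓞 K) (𝓞 L))).map ι := by
    intro i
    rw [Polynomial.map_map, Polynomial.map_map, hι, RingHom.comp_assoc,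
      ← IsScalarTower.algebraMap_eq (𝓞 K) (𝓞 L) L]
  have hroots : (∀ i, IsUnit (((χ i).map (algebraMap (𝓞 K) (𝓞 L))).coeff 0)) →
      ∃ a : Fin n → Fin r → (𝓞 L)ˣ, ∀ i, (χ i).map (algebraMap (𝓞 K) (𝓞 L)) =
        ∏ k, (Polynomial.X - Polynomial.C (a i k : 𝓞 L)) := by
    intro hu
    have h1 := fun i => exists_roots L (χ i) (hχ i).1 (hχ i).2 (hs i) (hu i)
    choose a ha using h1
    exact ⟨a, ha⟩
  constructor
  · -- `SL_r`
    intro hF ρ hρ
    have hρ2 : ∀ i, (ρ.2.2 i).1.charpoly = ((χ i).map (algebraMap (𝓞 K) (𝓞 L))).map ι :=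
      fun i => (hρ.2 i).trans (hmap i)
    have hu := isUnit_coeff ι hιinj (fun i => (χ i).map (algebraMap (𝓞 K) (𝓞 L)))
      (fun i => (ρ.2.2 i).1) (Finset.prod_eq_one fun i _ => (ρ.2.2 i).2)
      hρ2
    obtain ⟨a, ha⟩ := hroots hu
    have hF' := dense_core (r := r) (g := g) hr hn ι hιinj v hv a F ?_
      (fun j => (ρ.1 j).1) (fun j => (ρ.2.1 j).1) (fun i => (ρ.2.2 i).1)
      (fun j => (ρ.1 j).2) (fun j => (ρ.2.1 j).2) ?_ ?_
    · rw [← hF']
      congr 2
      funext z
      rcases z with ⟨i | i | i, w⟩ <;> rfl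
    · intro x y A hx hy hA hP
      have hdet : ∀ i, (A i).det = 1 := by
        intro i
        apply hιinj
        have h1 := congrArg (fun p => (-1) ^ r * ι (p.coeff 0)) (hA i)
        have h2 : (A i).det = (-1) ^ r * (A i).charpoly.coeff 0 := by
          rw [det_eq_sign_charpoly_coeff, Fintype.card_fin]
        have h3 : (ρ.2.2 i).1.det = (-1) ^ r * (ρ.2.2 i).1.charpoly.coeff 0 := by
          rw [det_eq_sign_charpoly_coeff, Fintype.card_fin]
        rw [h2, hA i, ← ha i, map_mul, map_pow, map_neg, map_one, ← Polynomial.coeff_map,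
          ← hρ2 i, ← h3]
        exact (ρ.2.2 i).2
      have h1 := hF (fun j => ⟨x j, hx j⟩, fun j => ⟨y j, hy j⟩, fun i => ⟨A i, hdet i⟩) ⟨?_, ?_⟩
      · rw [← h1]
        congr 2
        funext z
        rcases z with ⟨i | i | i, w⟩ <;> rfl
      · have h2 := SL_wval (fun j => (⟨x j, hx j⟩ : Matrix.SpecialLinearGroup (Fin r) (𝓞 L)))
          (fun j => (⟨y j, hy j⟩ : Matrix.SpecialLinearGroup (Fin r) (𝓞 L)))
          (fun i => (⟨A i, hdet i⟩ : Matrix.SpecialLinearGroup (Fin r) (𝓞 L)))
        exact Subtype.ext (h2.symm.trans hP)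
      · intro i
        change (A i).charpoly = _
        rw [hA i, ← ha i]
    · intro i
      change (ρ.2.2 i).1.charpoly = _
      rw [hρ2 i, ha i, Polynomial.map_prod]
      simp
    · have h2 := SL_wval ρ.1 ρ.2.1 ρ.2.2
      exact h2.trans (congrArg Subtype.val hρ.1)
  · -- `GL_r`
    intro hF ρ hρ
    have hρ2 : ∀ i, (ρ.2.2 i).1.charpoly = ((χ i).map (algebraMap (𝓞 K) (𝓞 L))).map ι :=
      fun i => (hρ.2 i).trans (hmap i)
    have hprod1 : (List.ofFn ρ.2.2).prod.det = 1 := by
      have h1 := congrArg Matrix.GeneralLinearGroup.det hρ.1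
      rw [map_mul, map_list_prod, List.map_ofFn] at h1
      have h2 : (List.ofFn (Matrix.GeneralLinearGroup.det ∘
          fun j => ρ.1 j * ρ.2.1 j * (ρ.1 j)⁻¹ * (ρ.2.1 j)⁻¹)).prod = 1 := by
        apply List.prod_eq_one
        intro x hx
        rw [List.mem_ofFn] at hx
        obtain ⟨j, rfl⟩ := hx
        simp only [Function.comp, map_mul, map_inv]
        rw [mul_comm (GeneralLinearGroup.det (ρ.1 j)), mul_inv_cancel_right, mul_inv_cancel]
      rw [h2, one_mul, map_one] at h1
      exact h1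
    have hprod2 : ∏ i, (ρ.2.2 i).1.det = 1 := by
      have h1 := congrArg Units.val hprod1
      rw [map_list_prod, List.map_ofFn, List.prod_ofFn, Units.coe_prod] at h1
      exact h1
    have hu := isUnit_coeff ι hιinj (fun i => (χ i).map (algebraMap (𝓞 K) (𝓞 L)))
      (fun i => (ρ.2.2 i).1) hprod2 hρ2
    obtain ⟨a, ha⟩ := hroots hu
    -- split off scalars
    have hsplit : ∀ z : GL (Fin r) Ω, ∃ (μ : Ωˣ) (z' : Mat r Ω), z'.det = 1 ∧
        (z : Mat r Ω) = (μ : Ω) • z' := by
      intro z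
      obtain ⟨μ, hμ⟩ := IsAlgClosed.exists_pow_nat_eq (z : Mat r Ω).det (by omega : 0 < r)
      have hz : (z : Mat r Ω).det ≠ 0 := ((isUnit_iff_isUnit_det _).1 z.isUnit).ne_zero
      have hμ0 : μ ≠ 0 := by
        rintro rfl
        rw [zero_pow (by omega)] at hμ
        exact hz hμ.symm
      refine ⟨Units.mk0 μ hμ0, μ⁻¹ • (z : Mat r Ω), ?_, ?_⟩
      · rw [det_smul, Fintype.card_fin, ← hμ, ← mul_pow, inv_mul_cancel₀ hμ0, one_pow]
      · rw [Units.val_mk0, smul_smul, mul_inv_cancel₀ hμ0, one_smul]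
    choose μ x' hx' hμ using fun j => hsplit (ρ.1 j)
    choose ν y' hy' hν using fun j => hsplit (ρ.2.1 j)
    have hF' := dense_core_GL (r := r) (g := g) hr hn ι hιinj v hv a F ?_
      (fun j => (μ j : Ω)) (fun j => (ν j : Ω)) x' y' (fun i => (ρ.2.2 i : Mat r Ω)) hx' hy' ?_ ?_
    · rw [← hF']
      congr 2
      funext z
      rcases z with ⟨i | i | i, w⟩
      · exact congrFun (congrFun (hμ i) w.1) w.2
      · exact congrFun (congrFun (hν i) w.1) w.2
      · rfl
    · intro m1 m2 x y A hx hy hA hP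
      have hdx : ∀ j, IsUnit ((m1 j : 𝓞 L) • x j).det := by
        intro j
        rw [det_smul, hx j, mul_one]
        exact (m1 j).isUnit.pow _
      have hdy : ∀ j, IsUnit ((m2 j : 𝓞 L) • y j).det := by
        intro j
        rw [det_smul, hy j, mul_one]
        exact (m2 j).isUnit.pow _
      have hdA : ∀ i, IsUnit (A i).det := by
        intro i
        rw [det_of_charpoly (fun k => (a i k : 𝓞 L)) (hA i)]
        exact IsUnit.prod_univ_iff.2 fun k => (a i k).isUnit
      have h1 := hF (fun j => Matrix.GeneralLinearGroup.mk'' _ (hdx j),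
        fun j => Matrix.GeneralLinearGroup.mk'' _ (hdy j),
        fun i => Matrix.GeneralLinearGroup.mk'' _ (hdA i)) ⟨?_, ?_⟩
      · rw [← h1]
        congr 2
        funext z
        rcases z with ⟨i | i | i, w⟩ <;> rfl
      · have h2 := GL_wval (fun j => Matrix.GeneralLinearGroup.mk'' _ (hdx j))
          (fun j => Matrix.GeneralLinearGroup.mk'' _ (hdy j))
          (fun i => Matrix.GeneralLinearGroup.mk'' _ (hdA i)) m1 m2 x y (fun j => rfl)
          (fun j => rfl) hx hy
        exact Units.ext (h2.symm.trans hP)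
      · intro i
        change (A i).charpoly = _
        rw [hA i, ← ha i]
    · intro i
      change (ρ.2.2 i).1.charpoly = _
      rw [hρ2 i, ha i, Polynomial.map_prod]
      simp
    · have h2 := GL_wval ρ.1 ρ.2.1 ρ.2.2 μ ν x' y' hμ hν hx' hy'
      exact h2.trans (congrArg Units.val hρ.1)

end Pool.Agent.Results.MP_3f0e22_ag.AffineCurves
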