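import Pool.Agent.CHV.Fin

/-!
# MP_3f0e22_ag: potential density of integral points for affine curves and Chevalley groups
-/

set_option autoImplicit false

namespace Pool.Agent.Results.MP_3f0e22_ag.ChevalleyCurves

open Pool.Agent.CHV Matrix NumberField

/-- Potential density of the integral points of the relative representation spaces of all affine
curves, for all pinned closed subgroups of `GL_m` over `ℤ` (Chevalley groups); the number field `L`
depends only on the group, on `K` and on a finite set `T` of units which contains the coordinates of
the classes. The symplectic and the special orthogonal groups are pinned groups, and for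
the symplectic group the class is the characteristic polynomial. -/
theorem result :
    (∀ P : PG0, P.Pinned → ∀ (K : Type) [Field K] [NumberField K] (T : Finset (𝓞 K)ˣ),
      ∃ (L : Type) (_ : Field L) (_ : NumberField L) (_ : Algebra K L),
        ∀ (g n : ℕ) (t : Fin (n + 1) → Fin P.nT → (𝓞 K)ˣ), (∀ i l, t i l ∈ T) →
          ∀ (W : Type) [Field W] [IsAlgClosed W] [Algebra L W],
            RelDense P (algebraMap (𝓞 K) (𝓞 L)) ((algebraMap L W).comp (algebraMap (𝓞 L) L))
              g (n + 1) t) ∧
    (∀ r k : ℕ, k ≤ 2 → (k = 0 → 2 ≤ r) → ∃ P : PG0, P.Pinned ∧ P.nT = r ∧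
      P.m = 2 * r + (if k = 2 then 1 else 0) ∧
      (∀ (R : Type) [CommRing R], (P.G R : Set (GL (Fin P.m) R)) = clG r k P.m R) ∧
      (k = 1 → ClassIsCharpoly P)) :=
  ⟨fun P hP K _ _ T => Fin.dense P hP K T, Fin.classical⟩

end Pool.Agent.Results.MP_3f0e22_ag.ChevalleyCurves
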