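import Pool.Agent.MP_3f0e22_ag.Asm11

/-!
# Potential density of integral points in the `PGL_r` character varieties of curves

Let `Y` be a smooth complex curve of genus `g` with `n ≥ 0` punctures and `r ≥ 3`. Its fundamental
group is generated by `a_j, b_j` (`j < g`) and the loops `c_i` (`i < n`) around the punctures, with
the single relation `∏ [a_j, b_j] ∏ c_i = 1`. We prove that the integral points are potentially
Zariski-dense in the relative representation spaces of `π₁(Y)` in `PGL_r`.
-/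

set_option autoImplicit false

namespace Pool.Agent.Results.MP_3f0e22_ag.PGLCurves

open Matrix Polynomial NumberField

/-- `PGL_r(R)`: the group of the `R`-algebra automorphisms of the algebra of the matrices. -/
abbrev PGL (r : ℕ) (R : Type) [CommRing R] : Type :=
  Matrix (Fin r) (Fin r) R ≃ₐ[R] Matrix (Fin r) (Fin r) R

/-- `Hom(π₁(Y), G)`, where `Y` has genus `g` and `n` punctures: the tuples
`((a_j), (b_j), (c_i))` with `∏ a_j b_j a_j⁻¹ b_j⁻¹ ∏ c_i = 1`. -/
def Rep (G : Type) [Group G] (g n : ℕ) : Set ((Fin g → G) × (Fin g → G) × (Fin n → G)) :=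
  {ρ | (List.ofFn fun j => ρ.1 j * ρ.2.1 j * (ρ.1 j)⁻¹ * (ρ.2.1 j)⁻¹).prod *
    (List.ofFn ρ.2.2).prod = 1}

/-- `φ` is the conjugation by a matrix with the characteristic polynomial `∏ (X - t k)`. -/
def HasClass {R : Type} [CommRing R] {r : ℕ} (t : Fin r → R) (φ : PGL r R) : Prop :=
  ∃ M M' : Matrix (Fin r) (Fin r) R, M * M' = 1 ∧ (∀ x, φ x = M * x * M') ∧
    M.charpoly = ∏ k, (X - C (t k))

/-- The representations of `π₁(Y)` in `PGL_r(R)` such that the loop `c_i` has the class `t i`. -/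
def PGLRep {R : Type} [CommRing R] (g n r : ℕ) (t : Fin n → Fin r → R) :
    Set ((Fin g → PGL r R) × (Fin g → PGL r R) × (Fin n → PGL r R)) :=
  {ρ | ρ ∈ Rep (PGL r R) g n ∧ ∀ i, HasClass (t i) (ρ.2.2 i)}

/-- The coordinates of a tuple of elements of `PGL_r(R)`: the matrix entries of the images of the
matrix units. -/
def coords {R : Type} [CommRing R] {g n r : ℕ}
    (ρ : (Fin g → PGL r R) × (Fin g → PGL r R) × (Fin n → PGL r R)) :
    (Fin g ⊕ Fin g ⊕ Fin n) × (Fin r × Fin r) × (Fin r × Fin r) → R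
  | (Sum.inl j, x, y) => ρ.1 j (Matrix.single x.1 x.2 1) y.1 y.2
  | (Sum.inr (Sum.inl j), x, y) => ρ.2.1 j (Matrix.single x.1 x.2 1) y.1 y.2
  | (Sum.inr (Sum.inr i), x, y) => ρ.2.2 i (Matrix.single x.1 x.2 1) y.1 y.2

open Pool.Agent.MP_3f0e22_ag Pool.Agent.MP_3f0e22_ag.Asm

theorem coords_eq {R : Type} [CommRing R] {g n r : ℕ}
    (ρ : (Fin g → PGL r R) × (Fin g → PGL r R) × (Fin n → PGL r R)) : coords ρ = pcoords ρ := by
  funext z
  rcases z with ⟨j | j | j, p, q⟩ <;> rfl

/-- The closed case. -/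
theorem result_closed (K : Type) [Field K] [NumberField K] (r : ℕ) (hr : 3 ≤ r) :
    ∃ (L : Type) (_ : Field L) (_ : NumberField L) (_ : Algebra K L),
      ∀ (g : ℕ) (t : Fin 0 → Fin r → 𝓞 L) (Ω : Type) [Field Ω] [IsAlgClosed Ω] [Algebra L Ω]
        (s : Fin 0 → Fin r → Ω)
        (F : MvPolynomial ((Fin g ⊕ Fin g ⊕ Fin 0) × (Fin r × Fin r) × (Fin r × Fin r)) Ω),
        (∀ ρ ∈ PGLRep g 0 r t, MvPolynomial.eval
            (fun x => algebraMap L Ω (algebraMap (𝓞 L) L (coords ρ x))) F = 0) →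
          ∀ ρ ∈ PGLRep g 0 r s, MvPolynomial.eval (coords ρ) F = 0 := by
  obtain ⟨L₀, _, _, _, L, _, _, _, t₀, v, ζ, ξ, ht1, ht, hv, hζ, hξ, hcap⟩ :=
    exists_fields (K := K) (r := r) (by omega)
  letI : Algebra K L := ((algebraMap L₀ L).comp (algebraMap K L₀)).toAlgebra
  refine ⟨L, inferInstance, inferInstance, inferInstance, ?_⟩
  intro g t Ω _ _ _ s F hF ρ hρ
  set i : 𝓞 L₀ →+* 𝓞 L := algebraMap (𝓞 L₀) (𝓞 L) with hi
  have hi' : Function.Injective i := algebraMap_O_injective L₀ L
  set ι : 𝓞 L →+* Ω := (algebraMap L Ω).comp (algebraMap (𝓞 L) L) with hι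
  have hι' : Function.Injective ι := (algebraMap L Ω).injective.comp RingOfIntegers.coe_injective
  haveI : CharZero Ω := charZero_of_injective_algebraMap (algebraMap L Ω).injective
  obtain ⟨x, y, hx, hy, U, c, -, hρ', hc⟩ := exists_lift (by omega) ρ s hρ.1 hρ.2
  rw [List.ofFn_zero, List.prod_nil, mul_one] at hc
  have hcr : c ^ r = 1 := by
    have h1 := congrArg Matrix.det hc
    rw [det_cval x y hx hy, det_smul, det_one, mul_one, Fintype.card_fin] at h1
    exact h1.symm
  have hζ' : IsPrimitiveRoot (ι (i ζ)) r := (hζ.map_of_injective hi').map_of_injective hι'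
  haveI : NeZero r := ⟨by omega⟩
  obtain ⟨k, -, hk⟩ := hζ'.eq_pow_of_pow_eq_one hcr
  rw [← map_pow, ← map_pow] at hk
  have hζk : (ζ ^ k) ^ r = 1 := by
    rw [← pow_mul, mul_comm, pow_mul, hζ.pow_eq_one, one_pow]
  obtain ⟨G, hG⟩ := exists_pull (σ := (Fin g ⊕ Fin g) × Fin r × Fin r) F (fun _ => 1)
    (fun j => Matrix.of fun k l => MvPolynomial.X (Sum.inl j, k, l))
    (fun j => Matrix.of fun k l => MvPolynomial.X (Sum.inr j, k, l)) (fun j => j.elim0)
  have hG' : ∀ (x y : Fin g → Mat r Ω) (A : Fin 0 → Mat r Ω), MvPolynomial.eval (ccoord x y) G =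
      MvPolynomial.eval (pco (fun _ => 1) x y A) F := by
    intro x y A
    rw [hG]
    refine congrArg (fun z => MvPolynomial.eval z F) ?_
    congr 1
    · funext j
      ext k l
      simp [ccoord]
    · funext j
      ext k l
      simp [ccoord]
    · funext j
      exact j.elim0
  have h2 := closed_tw i ι hi' hι' (fun I _ => hcap I) hr v hv t₀ ht1 ht ξ hξ (ζ ^ k) hζk G ?_ x y
    ⟨hx, hy, by rw [hk]; exact hc⟩
  · rw [hG' x y fun j => (U j : Mat r Ω)] at h2
    rw [← h2]
    refine congrArg (fun z => MvPolynomial.eval z F) ?_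
    rw [hρ', coords_eq]
    exact pcoords_Ad x y hx hy (fun j => (U j : Mat r Ω)) (fun _ => 1) U (fun _ => rfl)
      fun j => j.elim0
  · intro x y hxy
    rw [ccoord_map, hG' _ _ fun j => j.elim0]
    have h3 := hF ((fun j => Ad (slU (x j) (hxy.det_a j))), (fun j => Ad (slU (y j) (hxy.det_b j))),
      fun j => j.elim0) ⟨?_, fun j => j.elim0⟩
    · rw [← h3]
      refine congrArg (fun z => MvPolynomial.eval z F) ?_
      have h4 := pcoords_Ad x y hxy.det_a hxy.det_b (fun j : Fin 0 => j.elim0) (fun _ => 1)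
        (fun j => j.elim0) (fun j => j.elim0) fun j => j.elim0
      have h5 := pco_map ι (fun _ => (1 : 𝓞 L)) x y (fun j : Fin 0 => j.elim0)
      rw [← h4] at h5
      refine Eq.trans ?_ (h5.symm.trans ?_)
      · congr 1
        · funext j; exact j.elim0
        · funext j; exact j.elim0
      · funext z
        rcases z with ⟨j | j | j, p, q⟩
        · rfl
        · rfl
        · exact j.elim0
    · have h6 := (PRel_Ad x y hxy.det_a hxy.det_b (fun j : Fin 0 => j.elim0)).2 ?_
      · have h7 : (fun j : Fin 0 => Ad (j.elim0 : (Mat r (𝓞 L))ˣ)) = fun j : Fin 0 => j.elim0 := by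
          funext j
          exact j.elim0
        rw [h7] at h6
        exact h6
      · rw [List.ofFn_zero, List.prod_nil, mul_one]
        have hu : IsUnit (i (ζ ^ k)) := by
          refine IsUnit.of_mul_eq_one ((i (ζ ^ k)) ^ (r - 1)) ?_
          rw [← pow_succ', Nat.sub_add_cancel (by omega), ← map_pow, hζk, map_one]
        rw [Ad_smul _ 1 hu.unit, map_one]
        rw [cval_units, Units.val_one, IsUnit.unit_spec]
        exact hxy.rel

/-- **Potential density of the integral points for `PGL_r` and all curves.** Let `K` be a number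
field, `r ≥ 3`, `n ≥ 0` and let `t_i ∈ (𝓞_K^*)^r` (`i < n`) be the eigenvalues, up to scalars, of the
local monodromies. There is a number field `L ⊇ K` such that for every genus `g`, every polynomial
in the coordinates with coefficients in an algebraically closed field `Ω ⊇ L` which vanishes at all
the representations of `π₁(Y)` in `PGL_r(𝓞_L)` such that `c_i` has the class `t_i` vanishes at all
the representations in `PGL_r(Ω)` such that `c_i` has the class `t_i`. -/
theorem result (K : Type) [Field K] [NumberField K] (n r : ℕ) (hr : 3 ≤ r)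
    (t : Fin n → Fin r → (𝓞 K)ˣ) :
    ∃ (L : Type) (_ : Field L) (_ : NumberField L) (_ : Algebra K L),
      ∀ (g : ℕ) (Ω : Type) [Field Ω] [IsAlgClosed Ω] [Algebra L Ω]
        (F : MvPolynomial ((Fin g ⊕ Fin g ⊕ Fin n) × (Fin r × Fin r) × (Fin r × Fin r)) Ω),
        (∀ ρ ∈ PGLRep g n r (fun i k => algebraMap (𝓞 K) (𝓞 L) (t i k)), MvPolynomial.eval
            (fun x => algebraMap L Ω (algebraMap (𝓞 L) L (coords ρ x))) F = 0) →
          ∀ ρ ∈ PGLRep g n r (fun i k => algebraMap L Ω (algebraMap (𝓞 K) L (t i k))),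
            MvPolynomial.eval (coords ρ) F = 0 := by
  classical
  rcases n with _ | m
  · obtain ⟨L, _, _, _, hL⟩ := result_closed K r hr
    exact ⟨L, inferInstance, inferInstance, inferInstance, fun g Ω _ _ _ F hF ρ hρ =>
      hL g _ Ω _ F hF ρ hρ⟩
  -- the affine case
  set DD : (𝓞 K)ˣ := ∏ i, ∏ k, t i k with hDD
  set χ : Polynomial (𝓞 K) := X ^ r - C (DD : 𝓞 K) with hχ
  have hχm : χ.Monic := monic_X_pow_sub_C _ (by omega)
  obtain ⟨L, _, _, _, hs, v, hv⟩ := exists_L (K := K) (χ.map (algebraMap (𝓞 K) K))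
    (hχm.map _).ne_zero
  refine ⟨L, inferInstance, inferInstance, inferInstance, ?_⟩
  intro g Ω _ _ _ F hF ρ hρ
  set ι : 𝓞 L →+* Ω := (algebraMap L Ω).comp (algebraMap (𝓞 L) L) with hι
  have hι' : Function.Injective ι := (algebraMap L Ω).injective.comp RingOfIntegers.coe_injective
  set τ : Fin (m + 1) → Fin r → (𝓞 L)ˣ := fun i k => Units.map (algebraMap (𝓞 K) (𝓞 L) : 𝓞 K →* 𝓞 L) (t i k)
    with hτ
  have hτι : ∀ i k, ι (τ i k : 𝓞 L) = algebraMap L Ω (algebraMap (𝓞 K) L (t i k)) := by
    intro i k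
    change algebraMap L Ω (algebraMap (𝓞 L) L (algebraMap (𝓞 K) (𝓞 L) (t i k))) = _
    rw [← IsScalarTower.algebraMap_apply (𝓞 K) (𝓞 L) L]
  obtain ⟨x, y, hx, hy, U, c, hU, hρ', hc⟩ := exists_lift (by omega) ρ _ hρ.1 hρ.2
  have hUdet : ∀ i, (U i : Mat r Ω).det = ι ((∏ k, τ i k : (𝓞 L)ˣ) : 𝓞 L) := by
    intro i
    rw [det_of_charpoly _ (hU i), Units.coe_prod, map_prod]
    exact Finset.prod_congr rfl fun k _ => (hτι i k).symm
  have hcr : c ^ r = ι ((∏ i, ∏ k, τ i k : (𝓞 L)ˣ) : 𝓞 L) := by
    have h1 := congrArg Matrix.det hc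
    rw [det_mul, det_cval x y hx hy, det_smul, det_one, mul_one, one_mul, Fintype.card_fin] at h1
    rw [← h1, ← Matrix.coe_detMonoidHom, map_list_prod, List.map_ofFn, List.prod_ofFn,
      Units.coe_prod, map_prod]
    exact Finset.prod_congr rfl fun i _ => hUdet i
  -- the scalar is integral
  obtain ⟨c', hc'⟩ : ∃ c' : (𝓞 L)ˣ, ι (c' : 𝓞 L) = c := by
    have hcomp : (algebraMap K L).comp (algebraMap (𝓞 K) K) = algebraMap (𝓞 K) L :=
      (IsScalarTower.algebraMap_eq (𝓞 K) K L).symm
    rw [Polynomial.map_map, hcomp] at hs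
    have hu : IsUnit ((χ.map (algebraMap (𝓞 K) (𝓞 L))).coeff 0) := by
      rw [Polynomial.coeff_map]
      refine IsUnit.map _ ?_
      rw [hχ, Polynomial.coeff_sub, Polynomial.coeff_C_zero, Polynomial.coeff_X_pow,
        if_neg (by omega), zero_sub]
      exact DD.isUnit.neg
    obtain ⟨a, ha⟩ := exists_roots L χ hχm natDegree_X_pow_sub_C hs hu
    have h1 : (χ.map ((algebraMap L Ω).comp (algebraMap (𝓞 K) L))).eval c = 0 := by
      rw [hχ, Polynomial.map_sub, Polynomial.map_pow, Polynomial.map_X, Polynomial.map_C,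
        Polynomial.eval_sub, Polynomial.eval_pow, Polynomial.eval_X, Polynomial.eval_C, hcr, hDD,
        Units.coe_prod, Units.coe_prod, map_prod, map_prod, sub_eq_zero]
      refine Finset.prod_congr rfl fun i _ => ?_
      rw [Units.coe_prod, Units.coe_prod, map_prod, map_prod]
      exact Finset.prod_congr rfl fun k _ => hτι i k
    have h2 : (algebraMap L Ω).comp (algebraMap (𝓞 K) L) = ι.comp (algebraMap (𝓞 K) (𝓞 L)) := by
      rw [hι, RingHom.comp_assoc, ← IsScalarTower.algebraMap_eq (𝓞 K) (𝓞 L) L]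
    rw [h2, ← Polynomial.map_map, ha, Polynomial.map_prod, Polynomial.eval_prod,
      Finset.prod_eq_zero_iff] at h1
    obtain ⟨k, -, hk⟩ := h1
    refine ⟨a k, ?_⟩
    rw [Polynomial.map_sub, Polynomial.map_X, Polynomial.map_C, Polynomial.eval_sub,
      Polynomial.eval_X, Polynomial.eval_C, sub_eq_zero] at hk
    exact hk.symm
  -- the normalised eigenvalues
  set b : Fin (m + 1) → (𝓞 L)ˣ := fun i => if i = 0 then c'⁻¹ else 1 with hb
  set a : Fin (m + 1) → Fin r → (𝓞 L)ˣ := fun i k => b i * τ i k with ha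
  set D : Fin (m + 1) → (𝓞 L)ˣ := fun i => (∏ k, a i k)⁻¹ with hD
  obtain ⟨G, hG⟩ := exists_pull (σ := (Fin g ⊕ Fin g ⊕ Fin (m + 1)) × Fin r × Fin r) F
    (fun i => ι (D i : 𝓞 L))
    (fun j => Matrix.of fun k l => MvPolynomial.X (Sum.inl j, k, l))
    (fun j => Matrix.of fun k l => MvPolynomial.X (Sum.inr (Sum.inl j), k, l))
    (fun j => Matrix.of fun k l => MvPolynomial.X (Sum.inr (Sum.inr j), k, l))
  have hG' : ∀ (x y : Fin g → Mat r Ω) (A : Fin (m + 1) → Mat r Ω),
      MvPolynomial.eval (scoord x y A) G =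
      MvPolynomial.eval (pco (fun i => ι (D i : 𝓞 L)) x y A) F := by
    intro x y A
    rw [hG]
    refine congrArg (fun z => MvPolynomial.eval z F) ?_
    congr 1
    · funext j
      ext k l
      simp [scoord]
    · funext j
      ext k l
      simp [scoord]
    · funext j
      ext k l
      simp [scoord]
  -- the lift
  set A : Fin (m + 1) → Mat r Ω := fun i => ι (b i : 𝓞 L) • (U i : Mat r Ω) with hA
  have hAch : ∀ i, (A i).charpoly = ∏ k, (Polynomial.X - Polynomial.C (ι (a i k : 𝓞 L))) := by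
    intro i
    have h1 := charpoly_units_smul (Units.map (ι : 𝓞 L →* Ω) (b i)) (U i : Mat r Ω) _ (hU i)
    refine h1.trans (Finset.prod_congr rfl fun k _ => ?_)
    congr 2
    change ι (b i : 𝓞 L) * _ = ι ((b i : 𝓞 L) * (τ i k : 𝓞 L))
    rw [map_mul, hτι]
  have hAprod : (List.ofFn A).prod = c⁻¹ • (List.ofFn fun i => (U i : Mat r Ω)).prod := by
    rw [List.ofFn_succ, List.ofFn_succ, List.prod_cons, List.prod_cons]
    have h1 : A 0 = c⁻¹ • (U 0 : Mat r Ω) := by
      rw [hA, hb]
      simp only [if_pos]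
      rw [map_units_inv, hc']
    have h2 : ∀ i : Fin m, A i.succ = (U i.succ : Mat r Ω) := by
      intro i
      rw [hA, hb]
      simp only [Fin.succ_ne_zero, if_false, Units.val_one, map_one, one_smul]
    rw [h1, smul_mul_assoc]
    congr 3
    simp only [h2]
  have hc0 : c ≠ 0 := by
    rw [← hc']
    exact (c'.isUnit.map ι).ne_zero
  have hwv : wval (sword x y A) = 1 := by
    have h1 : wval (sword x y A) = cval x y * (List.ofFn A).prod := by
      rw [wval, sword, List.map_append, List.prod_append, List.map_ofFn, List.map_ofFn]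
      rfl
    rw [h1, hAprod, mul_smul_comm, hc, smul_smul, inv_mul_cancel₀ hc0, one_smul]
  have h2 := dense_core (r := r) (g := g) hr (by omega : 1 ≤ m + 1) ι hι' v hv a G ?_ x y A hx hy
    hAch hwv
  · rw [hG'] at h2
    rw [← h2]
    refine congrArg (fun z => MvPolynomial.eval z F) ?_
    have hAu : ∀ i, IsUnit (A i) := by
      intro i
      rw [isUnit_iff_isUnit_det, det_of_charpoly _ (hAch i)]
      exact IsUnit.prod_univ_iff.2 fun k => (a i k).isUnit.map ι
    have h3 : ρ = ((fun j => Ad (slU (x j) (hx j))), (fun j => Ad (slU (y j) (hy j))),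
        fun i => Ad (hAu i).unit) := by
      rw [hρ']
      congr 2
      funext i
      exact (Ad_smul (hAu i).unit (U i) (Units.map (ι : 𝓞 L →* Ω) (b i)) rfl).symm
    rw [h3, coords_eq]
    exact pcoords_Ad x y hx hy A (fun i => ι (D i : 𝓞 L)) (fun i => (hAu i).unit) (fun _ => rfl)
      fun i => by
        rw [det_of_charpoly _ (hAch i), ← map_prod, ← map_mul, ← Units.coe_prod, ← Units.val_mul,
          hD]
        simp only
        rw [inv_mul_cancel, Units.val_one, map_one]
  · intro x y A hx hy hA hP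
    have hAu : ∀ i, IsUnit (A i) := by
      intro i
      rw [isUnit_iff_isUnit_det, det_of_charpoly _ (hA i)]
      exact IsUnit.prod_univ_iff.2 fun k => (a i k).isUnit
    rw [show (fun z => ι (scoord x y A z)) = scoord (fun j => (x j).map ι)
      (fun j => (y j).map ι) (fun i => (A i).map ι) from funext fun z => scoord_map ι x y A z,
      hG', ← pco_map]
    have h3 := hF ((fun j => Ad (slU (x j) (hx j))), (fun j => Ad (slU (y j) (hy j))),
      fun i => Ad (hAu i).unit) ⟨?_, ?_⟩
    · rw [← h3]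
      refine congrArg (fun z => MvPolynomial.eval z F) ?_
      have h4 := pcoords_Ad x y hx hy A (fun i => (D i : 𝓞 L)) (fun i => (hAu i).unit)
        (fun _ => rfl) fun i => by
          rw [det_of_charpoly _ (hA i), hD, ← Units.coe_prod, ← Units.val_mul,
            inv_mul_cancel, Units.val_one]
      rw [← h4]
      funext z
      rw [coords_eq]
      rfl
    · refine (PRel_Ad x y hx hy _).2 ?_
      have h5 : (List.ofFn fun j => slU (x j) (hx j) * slU (y j) (hy j) *
        (slU (x j) (hx j))⁻¹ * (slU (y j) (hy j))⁻¹).prod *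
        (List.ofFn fun i => (hAu i).unit).prod = 1 := by
        apply Units.ext
        rw [Units.val_mul, cval_units, units_prod_val, Units.val_one, ← hP, wval, sword,
          List.map_append, List.prod_append, List.map_ofFn, List.map_ofFn]
        rfl
      rw [h5, map_one]
    · intro i
      refine ⟨(((b i)⁻¹ : (𝓞 L)ˣ) : 𝓞 L) • A i,
        (b i : 𝓞 L) • (((hAu i).unit⁻¹ : (Mat r (𝓞 L))ˣ) : Mat r (𝓞 L)), ?_, ?_, ?_⟩
      · rw [smul_mul_smul_comm, Units.inv_mul, one_smul]
        exact (hAu i).unit.mul_inv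
      · intro z
        rw [smul_mul_assoc, smul_mul_smul_comm, Units.inv_mul, one_smul]
        rfl
      · rw [charpoly_units_smul ((b i)⁻¹) (A i) _ (hA i)]
        refine Finset.prod_congr rfl fun k _ => ?_
        rw [← Units.val_mul, ha]
        simp only
        rw [inv_mul_cancel_left]
        rfl

end Pool.Agent.Results.MP_3f0e22_ag.PGLCurves
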