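import Pool.Agent.MP_3f0e22_ag.Asm9

/-!
# Potential density of integral points in the character varieties of projective curves

Let `Y` be a smooth complex projective curve of genus `g` and `r ≥ 3`. Its fundamental group is
generated by `a_j, b_j` (`j < g`) with the single relation `∏ [a_j, b_j] = 1`. We prove that the
integral points are potentially Zariski-dense in the spaces of the representations of `π₁(Y)` in
`SL_r` and `GL_r` (hence in the character varieties, which are their quotients by conjugation).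
-/

set_option autoImplicit false

namespace Pool.Agent.Results.MP_3f0e22_ag.ProjectiveCurves

open Matrix Polynomial NumberField

/-- `Hom(π₁(Y), G)`, where `Y` is a projective curve of genus `g`: the tuples `((a_j), (b_j))` with
`∏ a_j b_j a_j⁻¹ b_j⁻¹ = 1`. -/
def Rep (G : Type) [Group G] (g : ℕ) : Set ((Fin g → G) × (Fin g → G)) :=
  {ρ | (List.ofFn fun j => ρ.1 j * ρ.2 j * (ρ.1 j)⁻¹ * (ρ.2 j)⁻¹).prod = 1}

/-- The matrix entries of a tuple, for a function `M` which gives matrices. -/
def coords {G R : Type} {g r : ℕ} (M : G → Matrix (Fin r) (Fin r) R)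
    (ρ : (Fin g → G) × (Fin g → G)) : (Fin g ⊕ Fin g) × Fin r × Fin r → R
  | (Sum.inl j, x) => M (ρ.1 j) x.1 x.2
  | (Sum.inr j, x) => M (ρ.2 j) x.1 x.2

open Pool.Agent.MP_3f0e22_ag Pool.Agent.MP_3f0e22_ag.Asm

/-- **Potential density of the integral points for projective curves.** Let `K` be a number field
and `r ≥ 3`. There is a number field `L ⊇ K` such that for every genus `g`, every polynomial in the
matrix entries with coefficients in an algebraically closed field `Ω ⊇ L` which vanishes at all the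
representations of `π₁(Y)` in `SL_r(𝓞_L)` (or `GL_r(𝓞_L)`) vanishes at all the representations in
`SL_r(Ω)` (resp. `GL_r(Ω)`). -/
theorem result (K : Type) [Field K] [NumberField K] (r : ℕ) (hr : 3 ≤ r) :
    ∃ (L : Type) (_ : Field L) (_ : NumberField L) (_ : Algebra K L),
      ∀ (g : ℕ) (Ω : Type) [Field Ω] [IsAlgClosed Ω] [Algebra L Ω]
        (F : MvPolynomial ((Fin g ⊕ Fin g) × Fin r × Fin r) Ω),
        ((∀ ρ ∈ Rep (Matrix.SpecialLinearGroup (Fin r) (𝓞 L)) g,
            MvPolynomial.eval
              (fun x => algebraMap L Ω (algebraMap (𝓞 L) L (coords Subtype.val ρ x))) F = 0) →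
          ∀ ρ ∈ Rep (Matrix.SpecialLinearGroup (Fin r) Ω) g,
            MvPolynomial.eval (coords Subtype.val ρ) F = 0) ∧
        ((∀ ρ ∈ Rep (GL (Fin r) (𝓞 L)) g,
            MvPolynomial.eval
              (fun x => algebraMap L Ω (algebraMap (𝓞 L) L (coords Units.val ρ x))) F = 0) →
          ∀ ρ ∈ Rep (GL (Fin r) Ω) g, MvPolynomial.eval (coords Units.val ρ) F = 0) := by
  obtain ⟨L₀, _, _, _, L, _, _, _, t, v, ζ, ξ, ht1, ht, hv, -, -, hcap⟩ :=
    exists_fields (K := K) (r := r) (by omega)
  letI : Algebra K L := ((algebraMap L₀ L).comp (algebraMap K L₀)).toAlgebra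
  refine ⟨L, inferInstance, inferInstance, inferInstance, ?_⟩
  intro g Ω _ _ _ F
  set i : 𝓞 L₀ →+* 𝓞 L := algebraMap (𝓞 L₀) (𝓞 L) with hi
  have hi' : Function.Injective i := algebraMap_O_injective L₀ L
  set ι : 𝓞 L →+* Ω := (algebraMap L Ω).comp (algebraMap (𝓞 L) L) with hι
  have hι' : Function.Injective ι := (algebraMap L Ω).injective.comp RingOfIntegers.coe_injective
  constructor
  · -- `SL_r`
    intro hF ρ hρ
    have hF' := closed_all i ι hi' hι' (fun I _ => hcap I) hr v hv t ht1 ht F ?_
      (fun j => (ρ.1 j).1) (fun j => (ρ.2 j).1) ⟨fun j => (ρ.1 j).2, fun j => (ρ.2 j).2, ?_⟩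
    · rw [← hF']
      congr 2
      funext z
      rcases z with ⟨j | j, w⟩ <;> rfl
    · intro x y hxy
      have h1 := hF (fun j => ⟨x j, hxy.det_a j⟩, fun j => ⟨y j, hxy.det_b j⟩) ?_
      · rw [← h1]
        congr 2
        funext z
        rcases z with ⟨j | j, w⟩ <;> rfl
      · have h2 := SL_cval (fun j => (⟨x j, hxy.det_a j⟩ : Matrix.SpecialLinearGroup (Fin r) (𝓞 L)))
          (fun j => (⟨y j, hxy.det_b j⟩ : Matrix.SpecialLinearGroup (Fin r) (𝓞 L)))
        have h3 := hxy.rel
        rw [one_smul] at h3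
        exact Subtype.ext (h2.symm.trans h3)
    · rw [one_smul]
      exact (SL_cval ρ.1 ρ.2).trans (congrArg Subtype.val hρ)
  · -- `GL_r`
    intro hF ρ hρ
    have hsplit : ∀ z : GL (Fin r) Ω, ∃ (μ : Ωˣ) (z' : Mat r Ω), z'.det = 1 ∧
        (z : Mat r Ω) = (μ : Ω) • z' := by
      intro z
      obtain ⟨μ, hμ⟩ := IsAlgClosed.exists_pow_nat_eq (z : Mat r Ω).det (by omega : 0 < r)
      have hz : (z : Mat r Ω).det ≠ 0 := ((isUnit_iff_isUnit_det _).1 z.isUnit).ne_zero
      have hμ0 : μ ≠ 0 := by
        rintro rfl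
        rw [zero_pow (by omega)] at hμ
        exact hz hμ.symm
      refine ⟨Units.mk0 μ hμ0, μ⁻¹ • (z : Mat r Ω), ?_, ?_⟩
      · rw [det_smul, Fintype.card_fin, ← hμ, ← mul_pow, inv_mul_cancel₀ hμ0, one_pow]
      · rw [Units.val_mk0, smul_smul, mul_inv_cancel₀ hμ0, one_smul]
    choose μ x' hx' hμ using fun j => hsplit (ρ.1 j)
    choose ν y' hy' hν using fun j => hsplit (ρ.2 j)
    have hF' := closed_all_GL i ι hi' hι' (fun I _ => hcap I) hr v hv t ht1 ht F ?_
      (fun j => (μ j : Ω)) (fun j => (ν j : Ω)) x' y' ⟨hx', hy', ?_⟩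
    · rw [← hF']
      congr 2
      funext z
      rcases z with ⟨j | j, w⟩
      · exact congrFun (congrFun (hμ j) w.1) w.2
      · exact congrFun (congrFun (hν j) w.1) w.2
    · intro m1 m2 x y hxy
      have hdx : ∀ j, IsUnit ((m1 j : 𝓞 L) • x j).det := by
        intro j
        rw [det_smul, hxy.det_a j, mul_one]
        exact (m1 j).isUnit.pow _
      have hdy : ∀ j, IsUnit ((m2 j : 𝓞 L) • y j).det := by
        intro j
        rw [det_smul, hxy.det_b j, mul_one]
        exact (m2 j).isUnit.pow _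
      have h1 := hF (fun j => Matrix.GeneralLinearGroup.mk'' _ (hdx j),
        fun j => Matrix.GeneralLinearGroup.mk'' _ (hdy j)) ?_
      · rw [← h1]
        congr 2
        funext z
        rcases z with ⟨j | j, w⟩ <;> rfl
      · have h2 := GL_cval (fun j => Matrix.GeneralLinearGroup.mk'' _ (hdx j))
          (fun j => Matrix.GeneralLinearGroup.mk'' _ (hdy j)) m1 m2 x y (fun j => rfl)
          (fun j => rfl) hxy.det_a hxy.det_b
        have h3 := hxy.rel
        rw [one_smul] at h3
        exact Units.ext (h2.symm.trans h3)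
    · rw [one_smul]
      exact (GL_cval ρ.1 ρ.2 μ ν x' y' hμ hν hx' hy').trans (congrArg Units.val hρ)

end Pool.Agent.Results.MP_3f0e22_ag.ProjectiveCurves
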